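import Pool.Agent.KS7_39.D53.Four

/-!
# Multiplication matrices of field extensions, and finite fields with at least five elements
-/

set_option autoImplicit false

namespace KS7_39.D53

open Polynomial Module Matrix IntermediateField

/-- the multiplication matrix of a generator of an extension of degree `n` -/
theorem exists_mulMatrix {K L : Type*} [Field K] [Field L] [Algebra K L] [FiniteDimensional K L]
    {n : ℕ} (hn : 2 ≤ n) (hf : finrank K L = n) (α : L) (hα : K⟮α⟯ = ⊤) :
    ∃ (p : K[X]) (σ : (Matrix (Fin n) (Fin n) K)ˣ), Irreducible p ∧ p.natDegree = n ∧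
      aeval (σ : Matrix (Fin n) (Fin n) K) p = 0 ∧
      (σ : Matrix (Fin n) (Fin n) K).det = Algebra.norm K α ∧
      ∃ i j, i ≠ j ∧ (σ : Matrix (Fin n) (Fin n) K) i j ≠ 0 := by
  have hint : IsIntegral K α := Algebra.IsIntegral.isIntegral α
  have hdeg : (minpoly K α).natDegree = n := by
    rw [← hf]
    exact (Field.primitive_element_iff_minpoly_natDegree_eq K α).1 hα
  have hα0 : α ≠ 0 := by
    rintro rfl
    have : (minpoly K (0 : L)).natDegree = 1 := by rw [minpoly.zero]; simp
    omega
  let b : Basis (Fin n) K L := Module.finBasisOfFinrankEq K L hf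
  let M : Matrix (Fin n) (Fin n) K := Algebra.leftMulMatrix b α
  let M' : Matrix (Fin n) (Fin n) K := Algebra.leftMulMatrix b α⁻¹
  have h1 : M * M' = 1 := by
    change Algebra.leftMulMatrix b α * Algebra.leftMulMatrix b α⁻¹ = 1
    rw [← map_mul, mul_inv_cancel₀ hα0, map_one]
  have h2 : M' * M = 1 := by
    change Algebra.leftMulMatrix b α⁻¹ * Algebra.leftMulMatrix b α = 1
    rw [← map_mul, inv_mul_cancel₀ hα0, map_one]
  refine ⟨minpoly K α, ⟨M, M', h1, h2⟩, minpoly.irreducible hint, hdeg, ?_, ?_, ?_⟩
  · change aeval (Algebra.leftMulMatrix b α) (minpoly K α) = 0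
    rw [aeval_algHom_apply, minpoly.aeval, map_zero]
  · exact (Algebra.norm_eq_matrix_det b α).symm
  · by_contra hcon
    push Not at hcon
    let j : Fin n := ⟨0, by omega⟩
    have h3 : α * b j = (M j j) • b j := by
      have h4 := b.sum_repr (α * b j)
      rw [← h4, Finset.sum_eq_single j]
      · congr 1
        exact (Algebra.leftMulMatrix_eq_repr_mul b α j j).symm
      · intro i _ hij
        have h5 : b.repr (α * b j) i = 0 := by
          rw [← Algebra.leftMulMatrix_eq_repr_mul b α i j]
          exact hcon i j hij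
        rw [h5, zero_smul]
      · intro h; exact absurd (Finset.mem_univ _) h
    have h4 : α = algebraMap K L (M j j) := by
      have hb : b j ≠ 0 := b.ne_zero j
      apply mul_right_cancel₀ hb
      rw [h3, Algebra.smul_def]
    have h5 : (minpoly K α).natDegree = 1 := by
      rw [minpoly.natDegree_eq_one_iff]
      exact ⟨M j j, h4.symm⟩
    omega

/-- a finite field with at least five elements has extensions of every degree with a generator
whose norm has order at least four -/
theorem exists_ext (K : Type*) [Field K] [Finite K] (hK : 5 ≤ Nat.card K) {n : ℕ} (hn : 1 ≤ n) :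
    ∃ (L : Type) (_ : Field L) (_ : Algebra K L) (_ : FiniteDimensional K L) (α : L),
      finrank K L = n ∧ K⟮α⟯ = ⊤ ∧ ∀ s, 1 ≤ s → s ≤ 3 → Algebra.norm K α ^ s ≠ 1 := by
  obtain ⟨p, hp⟩ := CharP.exists K
  haveI : Fact p.Prime := ⟨CharP.char_is_prime K p⟩
  haveI : NeZero n := ⟨by omega⟩
  obtain ⟨g, hg⟩ := IsCyclic.exists_generator (α := (FiniteField.Extension K p n)ˣ)
  refine ⟨FiniteField.Extension K p n, inferInstance, inferInstance, inferInstance, (g : _), 
    FiniteField.finrank_extension K p n, ?_, ?_⟩
  · rw [eq_top_iff]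
    intro x _
    by_cases hx : x = 0
    · rw [hx]; exact zero_mem _
    · obtain ⟨k, hk⟩ := Subgroup.mem_zpowers_iff.1 (hg (Units.mk0 x hx))
      have : x = ((g ^ k : (FiniteField.Extension K p n)ˣ) : FiniteField.Extension K p n) := by
        rw [hk]; rfl
      rw [this, Units.val_zpow_eq_zpow_val]
      exact zpow_mem (mem_adjoin_simple_self K _) k
  · intro s hs1 hs3 hs
    haveI := Fintype.ofFinite K
    have hall : ∀ y : Kˣ, y ^ s = 1 := by
      intro y
      obtain ⟨x, hx⟩ := FiniteField.unitsMap_norm_surjective K (FiniteField.Extension K p n) y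
      obtain ⟨k, hk⟩ := Subgroup.mem_zpowers_iff.1 (hg x)
      have h1 : (Units.map (Algebra.norm K (S := FiniteField.Extension K p n))) g ^ s = 1 := by
        ext
        simpa using hs
      rw [← hx, ← hk, map_zpow, ← zpow_natCast, ← _root_.zpow_mul, mul_comm, _root_.zpow_mul, zpow_natCast, h1,
        _root_.one_zpow]
    obtain ⟨c, hc⟩ := IsCyclic.exists_generator (α := Kˣ)
    have h1 : orderOf c = Nat.card Kˣ := orderOf_eq_card_of_forall_mem_zpowers hc
    have h2 : orderOf c ∣ s := orderOf_dvd_of_pow_eq_one (hall c)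
    have h3 := Nat.le_of_dvd (by omega) h2
    have h4 : Nat.card Kˣ = Nat.card K - 1 := Nat.card_units K
    omega

end KS7_39.D53
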