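import Pool.Graph.R_pool_sql_team_seeded_3997aac3.Q21.RDU.Up

/-!
# At least four conjugates over fields with an irreducible polynomial of suitable norm

Two endomorphisms killed by the same irreducible polynomial of degree `dim V` and which differ by an
endomorphism of rank one do not exist.
-/

set_option autoImplicit false

namespace KS7_39.D53

open Polynomial Module

section Key

variable {K V : Type*} [Field K] [AddCommGroup V] [Module K V] [FiniteDimensional K V]

theorem key {n : ℕ} (hn : finrank K V = n) (hn2 : 1 ≤ n) (p : K[X]) (hp : Irreducible p)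
    (hdeg : p.natDegree = n) (A B : Module.End K V) (hA : aeval A p = 0) (hB : aeval B p = 0)
    (φ : V →ₗ[K] K) (hφ : φ ≠ 0) (w : V) (hw : w ≠ 0) (h : ∀ v, B v = A v + φ v • w) : False := by
  -- a vector
  let Ψ : V →ₗ[K] (Fin (n - 1) → K) := LinearMap.pi fun m => φ ∘ₗ (A ^ (m : ℕ))
  have hker : LinearMap.ker Ψ ≠ ⊥ := by
    apply LinearMap.ker_ne_bot_of_finrank_lt
    rw [hn, Module.finrank_fin_fun]
    omega
  obtain ⟨v, hv, hv0⟩ := (Submodule.ne_bot_iff _).1 hker
  have hv1 : ∀ m : ℕ, m < n - 1 → φ ((A ^ m) v) = 0 := by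
    intro m hm
    have := congrFun (LinearMap.mem_ker.1 hv) ⟨m, hm⟩
    simpa [Ψ] using this
  have hAB : ∀ m : ℕ, m ≤ n - 1 → (B ^ m) v = (A ^ m) v := by
    intro m
    induction m with
    | zero => intro _; simp
    | succ m ih =>
      intro hm
      rw [pow_succ', pow_succ', Module.End.mul_apply, Module.End.mul_apply, ih (by omega), h,
        hv1 m (by omega), zero_smul, add_zero]
  -- the vector of degree `n`
  have hn' : (B ^ n) v = (A ^ n) v := by
    have e1 := congrArg (fun T : Module.End K V => T v) hA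
    have e2 := congrArg (fun T : Module.End K V => T v) hB
    simp only [aeval_eq_sum_range, LinearMap.zero_apply, LinearMap.sum_apply,
      LinearMap.smul_apply] at e1 e2
    rw [hdeg, Finset.sum_range_succ] at e1 e2
    have e3 : ∑ i ∈ Finset.range n, p.coeff i • (B ^ i) v =
        ∑ i ∈ Finset.range n, p.coeff i • (A ^ i) v := by
      refine Finset.sum_congr rfl fun i hi => ?_
      rw [hAB i (by have := Finset.mem_range.1 hi; omega)]
    rw [e3, ← e1] at e2
    have e4 := add_left_cancel e2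
    have hlc : p.coeff n ≠ 0 := by
      rw [← hdeg]
      exact leadingCoeff_ne_zero.2 hp.ne_zero
    exact smul_right_injective V hlc e4
  have hlast : φ ((A ^ (n - 1)) v) = 0 := by
    obtain ⟨m, rfl⟩ : ∃ m, n = m + 1 := ⟨n - 1, by omega⟩
    rw [pow_succ', pow_succ', Module.End.mul_apply, Module.End.mul_apply, hAB m (by omega), h] at hn'
    have : φ ((A ^ m) v) • w = 0 := by
      have := hn'
      rwa [add_eq_left] at this
    rcases smul_eq_zero.1 this with h1 | h1
    · simpa using h1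
    · exact absurd h1 hw
  have hall : ∀ m : ℕ, m < n → φ ((A ^ m) v) = 0 := by
    intro m hm
    rcases Nat.lt_or_ge m (n - 1) with h1 | h1
    · exact hv1 m h1
    · rw [show m = n - 1 by omega]; exact hlast
  -- cyclicity
  let Φ : (Fin n → K) →ₗ[K] V := Fintype.linearCombination K fun m : Fin n => (A ^ (m : ℕ)) v
  have hinj : Function.Injective Φ := by
    rw [injective_iff_map_eq_zero]
    intro c hc
    let f : K[X] := ∑ i : Fin n, C (c i) * X ^ (i : ℕ)
    have hf : (aeval A f) v = 0 := by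
      rw [← hc]
      simp only [f, Φ, map_sum, map_mul, aeval_C, map_pow, aeval_X, LinearMap.sum_apply,
        Module.End.mul_apply, Module.algebraMap_end_apply, Fintype.linearCombination_apply]
    have hcoef : ∀ i : Fin n, f.coeff i = c i := by
      intro i
      simp only [f, finset_sum_coeff, coeff_C_mul, coeff_X_pow]
      rw [Finset.sum_eq_single i]
      · simp
      · intro j _ hj
        rw [if_neg (fun h => hj (Fin.ext h.symm)), mul_zero]
      · intro h; exact absurd (Finset.mem_univ _) h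
    by_contra hc0
    have hf0 : f ≠ 0 := by
      intro h0
      apply hc0
      funext i
      rw [← hcoef i, h0]; simp
    have hfdeg : f.natDegree < n := by
      have : f.degree < n := by
        refine lt_of_le_of_lt (degree_sum_le _ _) ?_
        rw [Finset.sup_lt_iff (WithBot.bot_lt_coe _)]
        intro i _
        refine lt_of_le_of_lt (degree_C_mul_X_pow_le _ _) ?_
        exact_mod_cast i.2
      exact (natDegree_lt_iff_degree_lt hf0).2 this
    have hcop : IsCoprime p f := by
      refine (hp.coprime_iff_not_dvd).2 fun hd => ?_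
      have := natDegree_le_of_dvd hd hf0
      omega
    obtain ⟨a, b, hab⟩ := hcop
    apply hv0
    have h1 : (aeval A (a * p + b * f)) v = v := by rw [hab]; simp
    rw [← h1, map_add, map_mul, map_mul, hA, mul_zero, zero_add, Module.End.mul_apply, hf, map_zero]
  have hsurj : Function.Surjective Φ := by
    refine (LinearMap.injective_iff_surjective_of_finrank_eq_finrank ?_).1 hinj
    rw [hn, Module.finrank_fin_fun]
  apply hφ
  ext x
  obtain ⟨c, rfl⟩ := hsurj x
  simp only [Φ, Fintype.linearCombination_apply, map_sum, map_smul, LinearMap.zero_apply]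
  exact Finset.sum_congr rfl fun i _ => by rw [hall i i.2]

end Key

open Matrix
open Pool.Agent.Q21.RDU (PC Elem tv tv_val onePlus)

section Low

variable {K : Type*} [Field K] {ι : Type} [Fintype ι] [DecidableEq ι]

/-- matrix form -/
theorem keyM [Nonempty ι] (p : K[X]) (hp : Irreducible p) (hdeg : p.natDegree = Fintype.card ι)
    (A B : Matrix ι ι K) (hA : aeval A p = 0) (hB : aeval B p = 0) (φ : (ι → K) →ₗ[K] K)
    (hφ : φ ≠ 0) (w : ι → K) (hw : w ≠ 0) (h : ∀ v, B *ᵥ v = A *ᵥ v + φ v • w) : False := by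
  have key' : ∀ M : Matrix ι ι K, aeval M p = 0 → aeval (Matrix.toLin' M) p = 0 := by
    intro M hM
    have : aeval (Matrix.toLinAlgEquiv' M) p = Matrix.toLinAlgEquiv' (aeval M p) :=
      aeval_algHom_apply (Matrix.toLinAlgEquiv' : Matrix ι ι K ≃ₐ[K] _).toAlgHom M p
    rw [hM, map_zero] at this
    exact this
  refine key (n := Fintype.card ι) (by simp) Fintype.card_pos p hp hdeg (Matrix.toLin' A)
    (Matrix.toLin' B) (key' A hA) (key' B hB) φ hφ w hw fun v => ?_
  rw [Matrix.toLin'_apply, Matrix.toLin'_apply]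
  exact h v


theorem aeval_conj (τ : (Matrix ι ι K)ˣ) (M : Matrix ι ι K) (p : K[X]) :
    aeval (((τ⁻¹ : (Matrix ι ι K)ˣ) : Matrix ι ι K) * M * (τ : Matrix ι ι K)) p =
      ((τ⁻¹ : (Matrix ι ι K)ˣ) : Matrix ι ι K) * aeval M p * (τ : Matrix ι ι K) := by
  rw [aeval_eq_sum_range, aeval_eq_sum_range, Finset.mul_sum, Finset.sum_mul]
  refine Finset.sum_congr rfl fun i _ => ?_
  rw [mul_smul_comm, smul_mul_assoc, Units.conj_pow']

theorem tv_mulVec (k l : ι) (a : K) (u : ι → K) :
    (1 + single k l a : Matrix ι ι K) *ᵥ u = u + (a * u l) • (Pi.single k 1 : ι → K) := by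
  rw [Matrix.add_mulVec, Matrix.one_mulVec]
  congr 1
  ext x
  by_cases hx : x = k
  · subst hx
    simp [Matrix.single_mulVec]
  · simp [Matrix.single_mulVec, hx]

variable [Nontrivial ι] {p : K[X]} (hp : Irreducible p) (hdeg : p.natDegree = Fintype.card ι)
include hp hdeg

/-- `t A` and `A` are not both killed by `p` -/
theorem noL {k l : ι} {a : K} (ha : a ≠ 0) (A : (Matrix ι ι K)ˣ) (B : Matrix ι ι K)
    (hA : aeval (A : Matrix ι ι K) p = 0) (hB : aeval B p = 0)
    (h : B = (1 + single k l a) * (A : Matrix ι ι K)) : False := by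
  let φ : (ι → K) →ₗ[K] K := a • ((LinearMap.proj l : (ι → K) →ₗ[K] K) ∘ₗ
    Matrix.toLin' (A : Matrix ι ι K))
  have hφv : ∀ v, φ v = a * ((A : Matrix ι ι K) *ᵥ v) l := by
    intro v
    simp [φ, Matrix.toLin'_apply]
  refine keyM p hp hdeg (A : Matrix ι ι K) B hA hB φ ?_ (Pi.single k 1) ?_ ?_
  · intro h0
    have h1 := congrArg (fun f : (ι → K) →ₗ[K] K =>
      f (((A⁻¹ : (Matrix ι ι K)ˣ) : Matrix ι ι K) *ᵥ (Pi.single l 1))) h0
    simp only [LinearMap.zero_apply] at h1
    rw [hφv, Matrix.mulVec_mulVec, ← Units.val_mul, mul_inv_cancel, Units.val_one,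
      Matrix.one_mulVec, Pi.single_eq_same, mul_one] at h1
    exact ha h1
  · intro h0
    have := congrFun h0 k
    rw [Pi.single_eq_same] at this
    exact one_ne_zero this
  · intro v
    rw [h, ← Matrix.mulVec_mulVec, tv_mulVec, hφv]

/-- `A t` and `A` are not both killed by `p` -/
theorem noR {k l : ι} {a : K} (ha : a ≠ 0) (A : (Matrix ι ι K)ˣ) (B : Matrix ι ι K)
    (hA : aeval (A : Matrix ι ι K) p = 0) (hB : aeval B p = 0)
    (h : B = (A : Matrix ι ι K) * (1 + single k l a)) : False := by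
  let φ : (ι → K) →ₗ[K] K := a • (LinearMap.proj l : (ι → K) →ₗ[K] K)
  have hφv : ∀ v, φ v = a * v l := by
    intro v
    simp [φ]
  refine keyM p hp hdeg (A : Matrix ι ι K) B hA hB φ ?_
    ((A : Matrix ι ι K) *ᵥ (Pi.single k 1)) ?_ ?_
  · intro h0
    have h1 := congrArg (fun f : (ι → K) →ₗ[K] K => f (Pi.single l 1)) h0
    simp only [LinearMap.zero_apply] at h1
    rw [hφv, Pi.single_eq_same, mul_one] at h1
    exact ha h1
  · intro h0
    have h1 := congrArg (fun u => ((A⁻¹ : (Matrix ι ι K)ˣ) : Matrix ι ι K) *ᵥ u) h0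
    simp only [Matrix.mulVec_mulVec, Matrix.mulVec_zero] at h1
    rw [← Units.val_mul, inv_mul_cancel, Units.val_one, Matrix.one_mulVec] at h1
    have := congrFun h1 k
    rw [Pi.single_eq_same] at this
    exact one_ne_zero this
  · intro v
    rw [h, ← Matrix.mulVec_mulVec, tv_mulVec, hφv, Matrix.mulVec_add, Matrix.mulVec_smul]

/-- **At least four factors** -/
theorem low4 (σ : (Matrix ι ι K)ˣ) (hσ : aeval (σ : Matrix ι ι K) p = 0)
    (h1 : (σ : Matrix ι ι K).det ≠ 1) (h2 : (σ : Matrix ι ι K).det ^ 2 ≠ 1)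
    (h3 : (σ : Matrix ι ι K).det ^ 3 ≠ 1) (E : Subgroup (Matrix ι ι K)ˣ) (k l : ι) (hkl : k ≠ l)
    {a : K} (ha : a ≠ 0) (m : ℕ) (h : PC E σ m (tv k l hkl a)) : 4 ≤ m := by
  obtain ⟨L, hlen, hL, hprod⟩ := h
  by_contra hcon
  have hlen' : L.length ≤ 3 := by omega
  set δ := (σ : Matrix ι ι K).det with hδ
  have hδ0 : δ ≠ 0 := by
    have : IsUnit δ := (Matrix.isUnit_iff_isUnit_det _).1 σ.isUnit
    exact this.ne_zero
  have hinv : ∀ y : (Matrix ι ι K)ˣ, ((y⁻¹ : (Matrix ι ι K)ˣ) : Matrix ι ι K).det =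
      ((y : Matrix ι ι K).det)⁻¹ := by
    intro y
    have : ((y⁻¹ : (Matrix ι ι K)ˣ) : Matrix ι ι K).det * (y : Matrix ι ι K).det = 1 := by
      rw [← det_mul, ← Units.val_mul, inv_mul_cancel, Units.val_one, det_one]
    exact eq_inv_of_mul_eq_one_left this
  have hconj : ∀ τ : (Matrix ι ι K)ˣ, aeval ((τ⁻¹ * σ * τ : (Matrix ι ι K)ˣ) : Matrix ι ι K) p = 0 := by
    intro τ
    rw [Units.val_mul, Units.val_mul, aeval_conj, hσ, mul_zero, zero_mul]
  have hdconj : ∀ τ : (Matrix ι ι K)ˣ, ((τ⁻¹ * σ * τ : (Matrix ι ι K)ˣ) : Matrix ι ι K).det = δ := by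
    intro τ
    rw [Units.val_mul, Units.val_mul, det_mul, det_mul, hinv, mul_right_comm, inv_mul_cancel₀,
      one_mul]
    have : IsUnit (τ : Matrix ι ι K).det := (Matrix.isUnit_iff_isUnit_det _).1 τ.isUnit
    exact this.ne_zero
  have kinds : ∀ y ∈ L, (aeval (y : Matrix ι ι K) p = 0 ∧ (y : Matrix ι ι K).det = δ) ∨
      (aeval ((y⁻¹ : (Matrix ι ι K)ˣ) : Matrix ι ι K) p = 0 ∧ (y : Matrix ι ι K).det = δ⁻¹) := by
    intro y hy
    obtain ⟨τ, -, h | h⟩ := hL y hy
    · left
      rw [h]
      exact ⟨hconj τ, hdconj τ⟩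
    · right
      have e : y⁻¹ = τ⁻¹ * σ * τ := by rw [h]; group
      refine ⟨by rw [e]; exact hconj τ, ?_⟩
      have := hinv y⁻¹
      rw [inv_inv, e, hdconj] at this
      exact this
  have hdet : ((L.prod : (Matrix ι ι K)ˣ) : Matrix ι ι K).det = 1 := by
    rw [hprod, tv_val]
    exact Matrix.det_transvection_of_ne k l hkl a
  rcases L with _ | ⟨x, _ | ⟨y, _ | ⟨z, _ | ⟨w, L⟩⟩⟩⟩
  · have h1 := congrArg (fun u : (Matrix ι ι K)ˣ => (u : Matrix ι ι K) k l) hprod
    simp only [List.prod_nil, Units.val_one, tv_val, Matrix.add_apply, single_apply_same,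
      one_apply_ne hkl, zero_add] at h1
    exact ha h1.symm
  · rw [List.prod_singleton] at hdet
    rcases kinds x (by simp) with ⟨_, h⟩ | ⟨_, h⟩
    · exact h1 (h.symm.trans hdet)
    · rw [h, inv_eq_one] at hdet
      exact h1 hdet
  · rw [List.prod_cons, List.prod_singleton] at hdet hprod
    rw [Units.val_mul, det_mul] at hdet
    rcases kinds x (by simp) with ⟨hx, h⟩ | ⟨hx, h⟩ <;>
      rcases kinds y (by simp) with ⟨hy, h'⟩ | ⟨hy, h'⟩
    · rw [h, h', ← pow_two] at hdet; exact h2 hdet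
    · refine noL hp hdeg (k := k) (l := l) ha y⁻¹ (x : Matrix ι ι K) hy hx ?_
      have e : tv k l hkl a * y⁻¹ = x := by rw [← hprod, mul_inv_cancel_right]
      rw [← tv_val k l hkl, ← Units.val_mul, e]
    · refine noR hp hdeg (k := k) (l := l) ha x⁻¹ (y : Matrix ι ι K) hx hy ?_
      have e : x⁻¹ * tv k l hkl a = y := by rw [← hprod, inv_mul_cancel_left]
      rw [← tv_val k l hkl, ← Units.val_mul, e]
    · rw [h, h', ← pow_two, inv_pow, inv_eq_one] at hdet; exact h2 hdet
  · rw [List.prod_cons, List.prod_cons, List.prod_singleton, Units.val_mul, Units.val_mul, det_mul,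
      det_mul] at hdet
    have hc : δ ^ 3 = 1 ∨ δ = 1 := by
      rcases kinds x (by simp) with ⟨_, h⟩ | ⟨_, h⟩ <;>
        rcases kinds y (by simp) with ⟨_, h'⟩ | ⟨_, h'⟩ <;>
        rcases kinds z (by simp) with ⟨_, h''⟩ | ⟨_, h''⟩ <;>
        rw [h, h', h''] at hdet <;> field_simp at hdet
      all_goals first
        | exact Or.inl hdet
        | exact Or.inr hdet
        | exact Or.inl hdet.symm
        | exact Or.inr hdet.symm
    rcases hc with hc | hc
    · exact h3 hc
    · exact h1 hc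
  · simp only [List.length_cons] at hlen'
    omega

end Low

end KS7_39.D53
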